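import Pool.Agent.helper53.BND.SpecL

/-! # Project bnd (MP_376aaf_an), row LGX: the family of an invertible matrix -/

set_option autoImplicit false

open scoped Topology Matrix
open Filter Finset

namespace Pool.Agent.BND

open Pool.Agent.CZ Pool.Agent.PV

theorem LGX (hBFG : BFG_stmt) (hBFE : BFE_stmt) (hBFA : BFA_stmt) (hLGM : LGM_stmt) : LGX_stmt := by
  intro B M _ α A _ ι u c hC S hS m κ _ _ g
  have hmem : ∀ x : S m, InS B ι u c m (x : A) := fun x => (hS.mem m x).1 x.2
  choose G hG1 hG2 using fun a b : κ =>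
    hBFG B M α A ι u c hC m (((g : Matrix κ κ (S m)) a b : S m) : A) (hmem _)
  choose G' hG'1 hG'2 using fun a b : κ =>
    hBFG B M α A ι u c hC m ((((g⁻¹ : (Matrix κ κ (S m))ˣ) : Matrix κ κ (S m)) a b : S m) : A) (hmem _)
  obtain ⟨⟨h1a, h1b⟩, -, h3⟩ := hBFA B M α A ι u c hC m
  refine ⟨G, ⟨hG1, fun e s he hs => ?_⟩, hG2⟩
  have h1 := hLGM.2.2 B M α A ι u c hC S hS m κ (g : Matrix κ κ (S m)) ((g⁻¹ : (Matrix κ κ (S m))ˣ) : Matrix κ κ (S m))
    G G' hG1 hG'1 hG2 hG'2
  rw [Units.mul_inv] at h1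
  have hkey : mx (B.L m) G e s * mx (B.L m) G' e s = 1 := by
    rw [← hLGM.1]
    ext ⟨a, i⟩ ⟨b, j⟩
    have h4 := h1 a b
    by_cases hab : a = b
    · subst hab
      have h5 : (((1 : Matrix κ κ (S m)) a a : S m) : A) = 1 := by
        rw [Matrix.one_apply_eq]
        rfl
      rw [h5] at h4
      have h6 := (hBFE B M α A ι u c hC m 1 1 _ _ h1a h1a h4 h1b).1 rfl e s i j he hs i.2 j.2
      change fmul (B.L m) G G' a a e s i j = _
      rw [h6, Matrix.one_apply]
      by_cases hij : i = j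
      · subst hij
        rw [if_pos rfl, if_pos rfl]
      · rw [if_neg (fun h => hij (Fin.ext h)), if_neg (fun h => hij (Prod.ext_iff.1 h).2)]
    · have h5 : (((1 : Matrix κ κ (S m)) a b : S m) : A) = 0 := by
        rw [Matrix.one_apply_ne hab]
        rfl
      rw [h5] at h4
      obtain ⟨h7, h8⟩ := h3 0 1 _ h1a h1b
      rw [zero_smul] at h7 h8
      have h6 := (hBFE B M α A ι u c hC m 0 0 _ _ h7 h7 h4 h8).1 rfl e s i j he hs i.2 j.2
      change fmul (B.L m) G G' a b e s i j = _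
      rw [h6, Matrix.one_apply_ne (fun h => hab (Prod.ext_iff.1 h).1), zero_mul]
  have hdet := congrArg Matrix.det hkey
  rw [Matrix.det_mul, Matrix.det_one] at hdet
  intro h0
  rw [h0, zero_mul] at hdet
  exact zero_ne_one hdet

end Pool.Agent.BND
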